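import Pool.Agent.W39.LE.Stm

/-!
Cutting a tree at an edge
-/

set_option autoImplicit false

namespace Pool.Agent.W52.LE

open Pool.W39.LE

theorem walk_ind {V : Type} {H : SimpleGraph V} {P : V → Prop}
    (h : ∀ a b, H.Adj a b → P a → P b) {a b : V} (p : H.Walk a b) : P a → P b := by
  induction p with
  | nil => exact id
  | cons hadj _ ih => exact fun ha => ih (h _ _ hadj ha)

theorem conn {V : Type} (H G : SimpleGraph V) (hle : H ≤ G) (r : V) (S : Set V)
    (hS : ∀ v, v ∈ S ↔ H.Reachable r v) : (G.induce S).Connected := by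
  have hr : r ∈ S := (hS r).2 (SimpleGraph.Reachable.refl r)
  have key : ∀ v (hv : v ∈ S), (G.induce S).Reachable ⟨r, hr⟩ ⟨v, hv⟩ := by
    intro v hv
    obtain ⟨p⟩ := (hS v).1 hv
    have h1 := walk_ind (P := fun a => ∃ ha : a ∈ S, (G.induce S).Reachable ⟨r, hr⟩ ⟨a, ha⟩)
      (by
        rintro a b hab ⟨ha, h2⟩
        have hb : b ∈ S := (hS b).2 (((hS a).1 ha).trans hab.reachable)
        refine ⟨hb, h2.trans ?_⟩
        apply SimpleGraph.Adj.reachable
        exact hle hab) p ⟨hr, SimpleGraph.Reachable.refl _⟩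
    obtain ⟨_, h2⟩ := h1
    exact h2
  have hne : Nonempty S := ⟨⟨r, hr⟩⟩
  refine SimpleGraph.Connected.mk ?_
  rintro ⟨x, hx⟩ ⟨y, hy⟩
  exact (key x hx).symm.trans (key y hy)

theorem cut : S_CUT := by
  intro V _ _ G r hG hcard
  obtain ⟨v, hv⟩ : ∃ v : V, v ≠ r := Fintype.exists_ne_of_one_lt_card (by omega) r
  obtain ⟨u, hru⟩ : ∃ u, G.Adj r u := by
    obtain ⟨p⟩ := hG.connected.preconnected r v
    cases p with
    | nil => exact absurd rfl hv
    | cons h _ => exact ⟨_, h⟩
  have hbr := (SimpleGraph.isAcyclic_iff_forall_adj_isBridge.1 hG.isAcyclic) hru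
  rw [SimpleGraph.isBridge_iff] at hbr
  have hnr : ¬ (G \ SimpleGraph.fromEdgeSet {s(r, u)}).Reachable r u := hbr
  set H := G \ SimpleGraph.fromEdgeSet {s(r, u)} with hH
  have hHG : H ≤ G := sdiff_le
  have hadj : ∀ a b, G.Adj a b → H.Adj a b ∨ (a = r ∧ b = u) ∨ (a = u ∧ b = r) := by
    intro a b hab
    by_cases h : s(a, b) = s(r, u)
    · right
      rcases Sym2.eq_iff.1 h with h | h
      · exact Or.inl h
      · exact Or.inr h
    · left
      rw [hH, SimpleGraph.sdiff_adj]
      refine ⟨hab, fun h' => h ?_⟩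
      rw [SimpleGraph.fromEdgeSet_adj] at h'
      exact h'.1
  have hall : ∀ v, H.Reachable r v ∨ H.Reachable u v := by
    intro v
    obtain ⟨p⟩ := hG.connected.preconnected r v
    refine walk_ind (P := fun v => H.Reachable r v ∨ H.Reachable u v) ?_ p
      (Or.inl (SimpleGraph.Reachable.refl r))
    intro a b hab h
    rcases hadj a b hab with h1 | ⟨_, rfl⟩ | ⟨_, rfl⟩
    · exact h.imp (fun h2 => h2.trans h1.reachable) (fun h2 => h2.trans h1.reachable)
    · exact Or.inr (SimpleGraph.Reachable.refl _)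
    · exact Or.inl (SimpleGraph.Reachable.refl _)
  refine ⟨u, {v | H.Reachable r v}, hru, SimpleGraph.Reachable.refl r, hnr, ?_, ⟨?_, ?_⟩,
    ⟨?_, ?_⟩⟩
  · intro a ha b hb hab
    rcases hadj a b hab with h1 | h1 | ⟨rfl, _⟩
    · exact absurd (SimpleGraph.Reachable.trans ha h1.reachable) hb
    · exact h1
    · exact absurd ha hnr
  · exact conn H G hHG r _ fun v => Iff.rfl
  · exact hG.isAcyclic.induce _
  · refine conn H G hHG u _ fun v => ?_
    constructor
    · intro hv
      exact (hall v).resolve_left hv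
    · intro hv hv'
      exact hnr (SimpleGraph.Reachable.trans hv' hv.symm)
  · exact hG.isAcyclic.induce _

end Pool.Agent.W52.LE
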