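import Pool.Agent.W39.LE.Stm

/-!
Rerooting lemmas
-/

set_option autoImplicit false

namespace Pool.Agent.W52.LE

open Pool.W39.LE Pool.W39.LE.BT

theorem srefl (s : BT) : SEqv s s := ⟨rfl, rfl, rfl, fun _ => rfl⟩

theorem strans {s t u : BT} (h1 : SEqv s t) (h2 : SEqv t u) : SEqv s u :=
  ⟨h1.1.trans h2.1, h1.2.1.trans h2.2.1, h1.2.2.1.trans h2.2.2.1,
    fun z => (h1.2.2.2 z).trans (h2.2.2.2 z)⟩

theorem sjoin {s s' t t' : BT} (h1 : SEqv s s') (h2 : SEqv t t') :
    SEqv (join s t) (join s' t') := by
  refine ⟨?_, ?_, ?_, fun z => ?_⟩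
  · simp only [size, h1.1, h2.1]
  · simp only [nu, h1.2.1, h2.2.1, h1.2.2.1, h2.2.2.1]
  · simp only [av, h1.2.2.1, h2.2.2.1]
  · simp only [val, h1.2.2.2 z, h2.2.2.2 z]

theorem sswap (s u v : BT) : SEqv (join (join s u) v) (join (join s v) u) := by
  refine ⟨?_, ?_, ?_, fun z => ?_⟩
  · simp only [size]
    omega
  · simp only [nu, av]
    rcases Bool.eq_false_or_eq_true (av s) with h1 | h1 <;>
      rcases Bool.eq_false_or_eq_true (av u) with h2 | h2 <;>
      rcases Bool.eq_false_or_eq_true (av v) with h3 | h3 <;>
      simp [h1, h2, h3] <;> omega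
  · simp only [av]
    cases av s <;> cases av u <;> cases av v <;> rfl
  · simp only [val]
    refine Prod.ext ?_ ?_
    · simp only
      ring
    · simp only
      ring

theorem stoe {s t : BT} (h : SEqv s t) : Eqv s t :=
  ⟨h.1, h.2.1, fun z => by unfold Phi; rw [h.2.2.2 z]⟩

theorem etrans {s t u : BT} (h1 : Eqv s t) (h2 : Eqv t u) : Eqv s u :=
  ⟨h1.1.trans h2.1, h1.2.1.trans h2.2.1, fun z => (h1.2.2 z).trans (h2.2.2 z)⟩

theorem ecomm (s t : BT) : Eqv (join s t) (join t s) := by
  refine ⟨?_, ?_, fun z => ?_⟩
  · simp only [size]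
    omega
  · simp only [nu]
    cases av s <;> cases av t <;> simp <;> omega
  · simp only [Phi, val]
    ring

theorem size_pos (t : BT) : 1 ≤ t.size := by
  induction t with
  | leaf => exact le_rfl
  | join s t h1 h2 =>
    simp only [size]
    omega

theorem size_pth (k : ℕ) : (pth k).size = k + 1 := by
  induction k with
  | zero => rfl
  | succ k ih =>
    simp only [pth, size, ih]
    omega

theorem isp_pth (k : ℕ) : isp (pth k) = true := by
  induction k with
  | zero => rfl
  | succ k ih => simpa only [pth, isp] using ih

theorem eq_pth (t : BT) : isp t = true → t = pth (t.size - 1) := by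
  induction t with
  | leaf => intro _; rfl
  | join s t h1 h2 =>
    intro h
    cases s with
    | leaf =>
      simp only [isp] at h
      have h3 := h2 h
      have h4 := size_pos t
      obtain ⟨k, hk⟩ : ∃ k, t.size = k + 1 := ⟨t.size - 1, by omega⟩
      rw [hk] at h3
      have e : (join leaf t).size - 1 = k + 1 := by
        simp only [size, hk]
        omega
      rw [e]
      simp only [Nat.add_sub_cancel] at h3
      rw [pth, ← h3]
    | join a b =>
      simp [isp] at h

/-- a tree with extra children of the root -/
def joinl (t : BT) (Ks : List BT) : BT := Ks.foldl join t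

theorem joinl_congr (Ks : List BT) : ∀ {s t : BT}, SEqv s t → SEqv (joinl s Ks) (joinl t Ks) := by
  induction Ks with
  | nil => intro s t h; exact h
  | cons k Ks ih =>
    intro s t h
    exact ih (sjoin h (srefl k))

theorem joinl_join (Ks : List BT) : ∀ (s u : BT),
    SEqv (joinl (join s u) Ks) (join (joinl s Ks) u) := by
  induction Ks with
  | nil => intro s u; exact srefl _
  | cons k Ks ih =>
    intro s u
    exact strans (joinl_congr Ks (sswap s u k)) (ih (join s k) u)

theorem split1 (C : ℕ → Bool) (s : BT) : 1 ≤ cnt C s →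
    ∃ (s1 : BT) (a : ℕ), SEqv s (join s1 (pth a)) ∧ C (a + 1) = true := by
  induction s with
  | leaf =>
    intro h
    simp [cnt] at h
  | join s t h1 _ =>
    intro h
    by_cases hc : (isp t && C t.size) = true
    · rw [Bool.and_eq_true] at hc
      refine ⟨s, t.size - 1, ?_, ?_⟩
      · have h3 := eq_pth t hc.1
        rw [← h3]
        exact srefl _
      · have h4 := size_pos t
        have e : t.size - 1 + 1 = t.size := by omega
        rw [e]
        exact hc.2
    · simp only [cnt, if_neg hc, Nat.add_zero] at h
      obtain ⟨s1, a, h3, h4⟩ := h1 h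
      exact ⟨join s1 t, a, strans (sjoin h3 (srefl t)) (sswap _ _ _), h4⟩

theorem cnt_le (C : ℕ → Bool) (s : BT) (h : good C s = true) : cnt C s ≤ 1 := by
  cases s with
  | leaf => simp [cnt]
  | join s t =>
    simp only [good, Bool.and_eq_true, decide_eq_true_eq] at h
    exact h.2

theorem rr_aux (C : ℕ → Bool) (t : BT) : good C t = false → ∀ Ks : List BT,
    ∃ (X : BT) (a b : ℕ), C (a + 1) = true ∧ C (b + 1) = true ∧
      Eqv (joinl t Ks) (join (join X (pth a)) (pth b)) := by
  induction t with
  | leaf =>
    intro h
    simp [good] at h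
  | join s u h1 h2 =>
    intro h Ks
    by_cases hs : good C s = true
    · by_cases hu : good C u = true
      · -- two arms at the root
        have hc : ¬ cnt C (join s u) ≤ 1 := by
          intro hc
          simp [good, hs, hu, hc] at h
        have hs1 := cnt_le C s hs
        simp only [cnt] at hc
        have hiu : (isp u && C u.size) = true := by
          by_contra hcon
          rw [if_neg hcon] at hc
          omega
        rw [if_pos hiu] at hc
        obtain ⟨s1, a, h3, h4⟩ := split1 C s (by omega)
        rw [Bool.and_eq_true] at hiu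
        have h5 := eq_pth u hiu.1
        have h6 := size_pos u
        refine ⟨joinl s1 Ks, a, u.size - 1, h4, ?_, ?_⟩
        · have e : u.size - 1 + 1 = u.size := by omega
          rw [e]
          exact hiu.2
        · rw [← h5]
          apply stoe
          refine strans (joinl_join Ks s u) (sjoin ?_ (srefl u))
          exact strans (joinl_congr Ks h3) (joinl_join Ks s1 (pth a))
      · rw [Bool.not_eq_true] at hu
        obtain ⟨X, a, b, h3, h4, h5⟩ := h2 hu [joinl s Ks]
        refine ⟨X, a, b, h3, h4, ?_⟩
        refine etrans (stoe (joinl_join Ks s u)) (etrans (ecomm _ _) h5)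
    · rw [Bool.not_eq_true] at hs
      exact h1 hs (u :: Ks)

theorem rr : S_RR := fun C t h => rr_aux C t h []

theorem rp : S_RP := by
  intro t
  induction t with
  | leaf => intro _; rfl
  | join s u h1 h2 =>
    intro h
    simp only [good, Bool.and_eq_true, decide_eq_true_eq] at h
    obtain ⟨⟨hs, hu⟩, hc⟩ := h
    have hs' := h1 hs
    have hu' := h2 hu
    have hiu : isp u = true := by
      rw [hu']
      exact isp_pth _
    simp only [cnt, hiu, Bool.and_self, if_true] at hc
    have hc0 : cnt (fun _ => true) s = 0 := by omega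
    have hsl : s = leaf := by
      cases s with
      | leaf => rfl
      | join a b =>
        exfalso
        have h5 := size_pos a
        have h6 := size_pos b
        obtain ⟨k, hk⟩ : ∃ k, (join a b).size - 1 = k + 1 :=
          ⟨(join a b).size - 2, by simp only [size]; omega⟩
        rw [hk] at hs'
        rw [hs'] at hc0
        simp [pth, cnt, isp_pth] at hc0
    rw [hsl]
    have h6 := size_pos u
    have e : (join leaf u).size - 1 = (u.size - 1) + 1 := by
      simp only [size]
      omega
    rw [e, pth, ← hu']

end Pool.Agent.W52.LE
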